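import Pool.Agent.Helper66.TU.Defs

/-!
# TU module NODE1: the involution near the node `(T, T)`, in general directions
-/

namespace GWA

section RAM

variable {K : Type} [NormedField K] [Algebra GaussianInt K] [NeZero (2 : K)] [DecidableEq K]
  {π : GaussianInt} {A : (d : Kˣ) → E (d : K) → E (d : K) → Prop}

omit [NeZero (2 : K)] [DecidableEq K] in
/-- the norms of the three forms of the involution near `(1, 1)` -/
private theorem LHU.node_norms (h : LHU K π) (h3 : ¬ π ∣ 3) {X Y : K} (hX : 1 < ‖X‖)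
    (h1 : ‖X‖ = ‖Y‖) (h4 : ‖X / Y + 1‖ = 1) (h5 : ‖X / Y - 2‖ = 1)
    (h6 : ‖2 * (X / Y) - 1‖ = 1) :
    ‖sS ((X + 1) / (X - 1)) ((Y + 1) / (Y - 1))‖ = 1 ∧
    ‖sD ((X + 1) / (X - 1)) ((Y + 1) / (Y - 1))‖ = ‖X‖⁻¹ ∧
    ‖sQ ((X + 1) / (X - 1)) ((Y + 1) / (Y - 1))‖ = ‖X‖⁻¹ ^ 2 ∧
    ‖ff ((X + 1) / (X - 1))‖ = ‖X‖⁻¹ ∧ ‖ff ((Y + 1) / (Y - 1))‖ = ‖X‖⁻¹ := by
  have n2 : ‖(2 : K)‖ = 1 := h.norm_two h.odd
  have n3 : ‖(3 : K)‖ = 1 := by
    have := h.norm_eq_one h3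
    rwa [map_ofNat] at this
  have hY : 1 < ‖Y‖ := by rw [← h1]; exact hX
  have hX0 : X ≠ 0 := by rw [← norm_pos_iff]; linarith
  have hY0 : Y ≠ 0 := by rw [← norm_pos_iff]; linarith
  have nX1 : ‖X - 1‖ = ‖X‖ := by
    rw [sub_eq_add_neg, h.norm_sum_eq (by rwa [norm_neg, norm_one])]
  have nY1 : ‖Y - 1‖ = ‖X‖ := by
    rw [sub_eq_add_neg, h.norm_sum_eq (by rwa [norm_neg, norm_one]), h1]
  have hX1 : X - 1 ≠ 0 := by rw [← norm_pos_iff, nX1]; linarith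
  have hY1 : Y - 1 ≠ 0 := by rw [← norm_pos_iff, nY1]; linarith
  have hM : 0 < ‖X‖ := by linarith
  have hM1 : ‖X‖⁻¹ < 1 := inv_lt_one_of_one_lt₀ hX
  have hM0 : 0 < ‖X‖⁻¹ := inv_pos.2 hM
  -- `a = x - 1`, `b = y - 1`
  set a : K := 2 / (X - 1) with ha
  set b : K := 2 / (Y - 1) with hb
  have ex : (X + 1) / (X - 1) = 1 + a := by rw [ha]; field_simp; ring
  have ey : (Y + 1) / (Y - 1) = 1 + b := by rw [hb]; field_simp; ring
  rw [ex, ey]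
  have na : ‖a‖ = ‖X‖⁻¹ := by rw [ha, norm_div, n2, nX1, one_div]
  have nb' : ‖b‖ = ‖X‖⁻¹ := by rw [hb, norm_div, n2, nY1, one_div]
  -- the three directions
  have key : ∀ z : K, ‖z‖ = ‖X‖ → ∀ w : K, ‖w‖ ≤ 1 →
      ‖2 * (z + w) / ((X - 1) * (Y - 1))‖ = ‖X‖⁻¹ := by
    intro z hz w hw
    rw [norm_div, norm_mul, norm_mul, n2, nX1, nY1, h.norm_sum_eq (by rw [hz]; linarith), hz]
    field_simp
  have e1 : ‖a + b‖ = ‖X‖⁻¹ := by
    have e : a + b = 2 * ((X / Y + 1) * Y + (-2)) / ((X - 1) * (Y - 1)) := by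
      rw [ha, hb]; field_simp; ring
    rw [e]
    apply key
    · rw [norm_mul, h4, one_mul, h1]
    · rw [norm_neg, n2]
  have e2 : ‖2 * a - b‖ = ‖X‖⁻¹ := by
    have e : 2 * a - b = 2 * (-(X / Y - 2) * Y + (-1)) / ((X - 1) * (Y - 1)) := by
      rw [ha, hb]; field_simp; ring
    rw [e]
    apply key
    · rw [norm_mul, norm_neg, h5, one_mul, h1]
    · rw [norm_neg, norm_one]
  have e3 : ‖a - 2 * b‖ = ‖X‖⁻¹ := by
    have e : a - 2 * b = 2 * (-(2 * (X / Y) - 1) * Y + 1) / ((X - 1) * (Y - 1)) := by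
      rw [ha, hb]; field_simp; ring
    rw [e]
    apply key
    · rw [norm_mul, norm_neg, h6, one_mul, h1]
    · rw [norm_one]
  have fff : ∀ c : K, ‖c‖ = ‖X‖⁻¹ → ‖ff (1 + c)‖ = ‖X‖⁻¹ := by
    intro c hc
    have e : ff (1 + c) = (1 + c) * c * (2 + c) := by unfold ff; ring
    rw [e, norm_mul, norm_mul, h.norm_sum_eq (by rw [hc, norm_one]; exact hM1),
      h.norm_sum_eq (by rw [hc, n2]; exact hM1), hc, norm_one, n2]
    ring
  refine ⟨?_, ?_, ?_, fff a na, fff b nb'⟩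
  · have e : sS (1 + a) (1 + b) = 3 + (a + b) := by unfold sS; ring
    rw [e, h.norm_sum_eq (by rw [e1, n3]; exact hM1), n3]
  · have e : sD (1 + a) (1 + b) = 2 * (a + b) + 3 * (a * b) := by unfold sD; ring
    have n4 : ‖2 * (a + b)‖ = ‖X‖⁻¹ := by rw [norm_mul, n2, one_mul, e1]
    rw [e, h.norm_sum_eq, n4]
    rw [n4, norm_mul, n3, one_mul, norm_mul, na, nb']
    exact mul_lt_of_lt_one_left hM0 hM1
  · have e : sQ (1 + a) (1 + b) = (2 * a - b) * (a - 2 * b) := by unfold sQ; ring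
    rw [e, norm_mul, e2, e3]; ring

/-- near the node `(T, T)`, in general directions -/
theorem MSt.node_gen (hA : MSt π A) (h : LHU K π) (h3 : ¬ π ∣ 3)
    (heven : ∀ (d : Kˣ) (m : ℤ), ‖(d : K)‖ = ‖algebraMap GaussianInt K π‖ ^ (2 * m) →
      ∀ P Q : E (d : K), A d P Q) (d : Kˣ) {ε ε' : E (d : K)} (hε : ε ∈ nb π (d : K) 0)
    (hε' : ε' ∈ nb π (d : K) 0) (hne : ε ≠ 0) (hne' : ε' ≠ 0)
    (h1 : ‖nx ε‖ = ‖nx ε'‖) (h4 : ‖nx ε / nx ε' + 1‖ = 1) (h5 : ‖nx ε / nx ε' - 2‖ = 1)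
    (h6 : ‖2 * (nx ε / nx ε') - 1‖ = 1) :
    A d (T d.ne_zero + ε) (T d.ne_zero + ε') := by
  have hd := d.ne_zero
  have hX : 1 < ‖nx ε‖ := ((h.mem_nb_zero_iff hd).1 hε).resolve_left hne
  have hY : 1 < ‖nx ε'‖ := ((h.mem_nb_zero_iff hd).1 hε').resolve_left hne'
  have hM0 : 0 < ‖nx ε‖⁻¹ := inv_pos.2 (by linarith)
  have hXn : nx ε ≠ 1 := by
    intro hc
    rw [hc, norm_one] at hX
    exact lt_irrefl _ hX
  have hYn : nx ε' ≠ 1 := by
    intro hc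
    rw [hc, norm_one] at hY
    exact lt_irrefl _ hY
  obtain ⟨hP0, hPx⟩ := nx_add_T hd hne hXn
  obtain ⟨hQ0, hQx⟩ := nx_add_T hd hne' hYn
  rw [add_comm] at hP0 hPx
  rw [add_comm ε'] at hQ0 hQx
  obtain ⟨nS, nD, nQ, nfx, nfy⟩ := h.node_norms h3 hX h1 h4 h5 h6
  rw [← hPx, ← hQx] at nS nD nQ
  rw [← hPx] at nfx
  rw [← hQx] at nfy
  set P := T hd + ε with hP
  set Q := T hd + ε' with hQ
  have hffx0 : ff (nx P) ≠ 0 := by rw [← norm_pos_iff, nfx]; exact hM0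
  have hffy0 : ff (nx Q) ≠ 0 := by rw [← norm_pos_iff, nfy]; exact hM0
  have hS0 : sS (nx P) (nx Q) ≠ 0 := by rw [← norm_pos_iff, nS]; exact one_pos
  have hD0 : sD (nx P) (nx Q) ≠ 0 := by rw [← norm_pos_iff, nD]; exact hM0
  have hQ0' : sQ (nx P) (nx Q) ≠ 0 := by rw [← norm_pos_iff, nQ]; positivity
  have hyP := (yc_ne_iff hd P).2 hffx0
  have hyQ := (yc_ne_iff hd Q).2 hffy0
  set u := mkPt hd P Q hyP hyQ with hu
  have hux : u.x = nx P := rfl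
  have huy : u.y = nx Q := rfl
  have hI : IOK u := by
    refine ⟨?_, ?_, ?_⟩ <;> rw [hux, huy] <;> assumption
  obtain ⟨d', P', Q', hrep⟩ := exists_rep (iota u hI)
  have hd' := d'.ne_zero
  have hPx' : nx P' = (iota u hI).x := by
    unfold nx; rw [← hrep.2.2.2.1, mul_div_cancel_right₀ _ hrep.1]
  have hff' : ff (nx P') = kap (nx P) (nx Q) * ff (nx P) := by
    rw [hPx', iota_x, hux, huy]; exact ff_sx hD0
  have n2 : ‖(2 : K)‖ = 1 := h.norm_two h.odd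
  have nkap : ‖kap (nx P) (nx Q)‖ = ‖nx ε‖ := by
    unfold kap
    have h44 : ‖(-4 : K)‖ = 1 := by
      have : (-4 : K) = -(2 * 2) := by norm_num
      rw [this, norm_neg, norm_mul, n2, mul_one]
    rw [norm_div, norm_mul, norm_mul, norm_pow, h44, nS, nQ, nD]
    have : ‖nx ε‖ ≠ 0 := by linarith
    field_simp
  have nff' : ‖ff (nx P')‖ = 1 := by
    rw [hff', norm_mul, nkap, nfx]
    exact mul_inv_cancel₀ (by linarith)
  -- `d'` is a square up to a unit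
  have hsq := congrArg norm (sq_ff_nx hd' P')
  rw [norm_pow, norm_mul, nff', mul_one] at hsq
  have hy0 : yc P' / (d' : K) ≠ 0 := by
    intro hc
    rw [hc, norm_zero] at hsq
    have : 0 < ‖(d' : K)‖ := norm_pos_iff.2 hd'
    rw [← hsq] at this
    norm_num at this
  obtain ⟨m, hm⟩ := h.unif _ hy0
  have hdm : ‖(d' : K)‖ = ‖algebraMap GaussianInt K π‖ ^ (2 * m) := by
    rw [← hsq, hm, ← zpow_natCast, ← zpow_mul, mul_comm]
    rfl
  have hS : SRel ⟨d, P, Q⟩ ⟨d', P', Q'⟩ := ⟨u, hI, rep_mkPt hd hyP hyQ, hrep⟩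
  exact hA.sig d' P' Q' d P Q hS.symm (heven d' m hdm P' Q')

end RAM

end GWA
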